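import Pool.Agent.N201.BT.A

/-!
# Arbitrary maps at the integer parts of generic multiples of real polynomials

Let `T_1, ..., T_m` be arbitrary invertible measure preserving maps of a probability space, with no relation between
them: they need not commute nor generate a nilpotent group, they may coincide, and they need not be times of flows. Let
`P_1, ..., P_m` be real polynomials of positive degree and `f_1, ..., f_m` in `L^∞`. For Lebesgue almost every
`(a_1, ..., a_m)` in `ℝ ^ m` the averages over `|n| ≤ N` of `∏ f_j (T_j ^ ⌊a_j P_j(n)⌋ x)` converge for almost every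
`x`, and the limit is the product of the conditional expectations of the `f_j` on the `T_j`-invariant sets.

The starting result `GenericTimesOfFlows` is about the times `a_j P_j(n)` of flows. A map is in general not a time of a
flow, and the suspension flow only gives the times `⌊s + a_j P_j(n)⌋` for almost every `s` in `[0, 1]`.

Proof: the theorem `bty_all` of the library `Pool.Agent.Y957.MC` (unused so far): for one map and almost every `x`, for
EVERY bounded sequence `B`, for almost every `a > 0`, `(1/N) ∑ B(n) (f (T^⌊a P(n)⌋ x) - E(f|T)(x)) → 0`. For negative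
times `⌊-y⌋ = -(⌊y⌋ + 1)`, and `E(f ∘ T⁻¹|T) = E(f|T)`.
-/

set_option autoImplicit false

namespace Pool.Agent.Results.MP_4d8f14_an.IntegerPartsOfPolynomials

open MeasureTheory Filter Finset

universe u

theorem result (X : Type u) [MeasurableSpace X] (μ : Measure X) [IsProbabilityMeasure μ] (m : ℕ)
    (T : Fin m → Equiv.Perm X) (hT : ∀ j, MeasurePreserving (T j) μ μ) (hTs : ∀ j, Measurable (T j).symm)
    (P : Fin m → Polynomial ℝ) (hP : ∀ j, 0 < (P j).natDegree)
    (f : Fin m → X → ℂ) (hf : ∀ j, AEStronglyMeasurable (f j) μ) (hfb : ∀ j, ∃ C : ℝ, ∀ᵐ x ∂μ, ‖f j x‖ ≤ C) :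
    ∀ᵐ a : Fin m → ℝ, ∀ᵐ x ∂μ,
      Tendsto (fun N : ℕ => (1 / (2 * (N : ℂ) + 1)) * ∑ n ∈ Icc (-(N : ℤ)) N,
        ∏ j, f j ((T j ^ ⌊a j * (P j).eval (n : ℝ)⌋) x)) atTop
        (nhds (∏ j, (μ[f j | MeasurableSpace.invariants (T j)]) x)) :=
  Pool.Agent.N201.BT.invs_Linf (fun j => ⟨(hT j).measurable, hTs j, hT j⟩) hP hf hfb

end Pool.Agent.Results.MP_4d8f14_an.IntegerPartsOfPolynomials
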